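import Mathlib
import Pool.Agent.Helper65.MT.St

/-! # MT module RM -/

open Finset Pool.Agent.Helper16 Pool.Agent.Helper65.MT

namespace Pool.Agent.Helper16.MT

theorem m_RM : StRM := by
  intro hGM m x L W z hx hL hW hz hxW
  have h1 := hasSum_form x L z
  have h2 := hasSum_one z W (∑ i, L i - 1)
  have h3 := h1.norm_le_of_bounded h2 (fun k => by
    rw [Real.norm_eq_abs, abs_mul, abs_of_nonneg (by positivity)]
    refine mul_le_mul_of_nonneg_left ?_ (by positivity)
    rw [mul_comm (W ^ _)]
    exact hGM m x L W k hx hL hW hxW)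
  rwa [Real.norm_eq_abs] at h3

end Pool.Agent.Helper16.MT
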